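import Pool.Agent.Q130.NM.Defs

/-!
# MP_bfacb1: colour counts of proper colourings avoiding rainbow copies

For `G = K_5` and `H` the house (a 5-cycle with one chord) the set `K(G, H)` contains `5` and `7`
but not `6`, so it is not an interval.
-/

namespace Pool.Agent.Results.MP_bfacb1_co.House

open Q130.NM SimpleGraph Finset

/-- `K(G, H)`: the numbers `k ≥ 1` such that `G` has a proper edge colouring using exactly `k`
colours and without rainbow copy of `H`. -/
def KSet {V W : Type} (G : SimpleGraph V) (H : SimpleGraph W) : Set ℕ :=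
  {k | 1 ≤ k ∧ ∃ c, Proper G c ∧ Uses G c k ∧ ¬ HasRainbow G H c}

/-- The edges of the house. -/
def hl : List (Fin 5 × Fin 5) := [(0, 1), (0, 3), (0, 4), (1, 2), (1, 4), (2, 3)]

/-- The house: the 4-cycle `0 1 2 3` and the triangle `0 1 4`. -/
def house : SimpleGraph (Fin 5) where
  Adj a b := a ≠ b ∧ ((a, b) ∈ hl ∨ (b, a) ∈ hl)
  symm := ⟨fun _ _ h => ⟨h.1.symm, h.2.symm⟩⟩
  loopless := ⟨fun _ h => h.1 rfl⟩

instance : DecidableRel house.Adj :=
  fun a b => inferInstanceAs (Decidable (a ≠ b ∧ ((a, b) ∈ hl ∨ (b, a) ∈ hl)))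

/-- The first end of the `i`-th edge of `K_5`. -/
def e1 : Fin 10 → Fin 5 := ![0, 0, 0, 0, 1, 1, 1, 2, 2, 3]
/-- The second end of the `i`-th edge of `K_5`. -/
def e2 : Fin 10 → Fin 5 := ![1, 2, 3, 4, 2, 3, 4, 3, 4, 4]
/-- The index of an edge. -/
def ix : Fin 5 → Fin 5 → Fin 10 := ![![0, 0, 1, 2, 3], ![0, 0, 4, 5, 6], ![1, 4, 0, 7, 8], ![2, 5, 7, 0, 9], ![3, 6, 8, 9, 0]]

/-- The pairs of disjoint edges of `K_5`. -/
def pairs : List (Fin 10 × Fin 10) := [(0, 7), (0, 8), (0, 9), (1, 5), (1, 6), (1, 9), (2, 4), (2, 6), (2, 8), (3, 4), (3, 5), (3, 7), (4, 9), (5, 8), (6, 7)]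

/-- The copies of the house in `K_5`. -/
def cps : List (Fin 5 → Fin 5) := [
  ![0, 1, 2, 3, 4], ![0, 1, 2, 4, 3], ![0, 1, 3, 2, 4], ![0, 1, 3, 4, 2], ![0, 1, 4, 2, 3],
  ![0, 1, 4, 3, 2], ![0, 2, 1, 3, 4], ![0, 2, 1, 4, 3], ![0, 2, 3, 1, 4], ![0, 2, 3, 4, 1],
  ![0, 2, 4, 1, 3], ![0, 2, 4, 3, 1], ![0, 3, 1, 2, 4], ![0, 3, 1, 4, 2], ![0, 3, 2, 1, 4],
  ![0, 3, 2, 4, 1], ![0, 3, 4, 1, 2], ![0, 3, 4, 2, 1], ![0, 4, 1, 2, 3], ![0, 4, 1, 3, 2],
  ![0, 4, 2, 1, 3], ![0, 4, 2, 3, 1], ![0, 4, 3, 1, 2], ![0, 4, 3, 2, 1], ![1, 2, 0, 3, 4],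
  ![1, 2, 0, 4, 3], ![1, 2, 3, 0, 4], ![1, 2, 3, 4, 0], ![1, 2, 4, 0, 3], ![1, 2, 4, 3, 0],
  ![1, 3, 0, 2, 4], ![1, 3, 0, 4, 2], ![1, 3, 2, 0, 4], ![1, 3, 2, 4, 0], ![1, 3, 4, 0, 2],
  ![1, 3, 4, 2, 0], ![1, 4, 0, 2, 3], ![1, 4, 0, 3, 2], ![1, 4, 2, 0, 3], ![1, 4, 2, 3, 0],
  ![1, 4, 3, 0, 2], ![1, 4, 3, 2, 0], ![2, 3, 0, 1, 4], ![2, 3, 0, 4, 1], ![2, 3, 1, 0, 4],
  ![2, 3, 1, 4, 0], ![2, 3, 4, 0, 1], ![2, 3, 4, 1, 0], ![2, 4, 0, 1, 3], ![2, 4, 0, 3, 1],
  ![2, 4, 1, 0, 3], ![2, 4, 1, 3, 0], ![2, 4, 3, 0, 1], ![2, 4, 3, 1, 0], ![3, 4, 0, 1, 2],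
  ![3, 4, 0, 2, 1], ![3, 4, 1, 0, 2], ![3, 4, 1, 2, 0], ![3, 4, 2, 0, 1], ![3, 4, 2, 1, 0]]

/-- Two pairs without common index. -/
def dj (p q : Fin 10 × Fin 10) : Bool :=
  p.1 != q.1 && p.1 != q.2 && p.2 != q.1 && p.2 != q.2

/-- `i` is an edge of the copy `φ`. -/
def hm (φ : Fin 5 → Fin 5) (i : Fin 10) : Bool := hl.any fun e => ix (φ e.1) (φ e.2) == i

/-- The final test. -/
def okS (S : List (Fin 10 × Fin 10)) : Bool :=
  if (List.finRange 10).countP (fun i => S.all fun p => p.1 != i) = 6 then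
    cps.any fun φ => S.all fun p => !(hm φ p.1 && hm φ p.2)
  else true

/-- The search over all sets of pairwise index-disjoint pairs. -/
def chk : List (Fin 10 × Fin 10) → List (Fin 10 × Fin 10) → Bool
  | [], S => okS S
  | p :: l, S => chk l S && (if S.all (fun q => dj q p) then chk l (p :: S) else true)

lemma chk_pairs : chk pairs [] = true := by decide +kernel

lemma chk_sound (P : Fin 10 × Fin 10 → Bool) : ∀ (l S : List (Fin 10 × Fin 10)),
    chk l S = true → l.Pairwise (fun p q => P p = true → P q = true → dj p q = true) →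
    (∀ q ∈ S, ∀ p ∈ l, P p = true → dj q p = true) → okS ((l.filter P).reverse ++ S) = true := by
  intro l
  induction l with
  | nil => intro S h _ _; simpa [chk] using h
  | cons p l ih =>
    intro S h hp hS
    rw [chk, Bool.and_eq_true] at h
    rw [List.pairwise_cons] at hp
    by_cases hP : P p = true
    · rw [List.filter_cons_of_pos hP, List.reverse_cons, List.append_assoc, List.singleton_append]
      have hall : S.all (fun q => dj q p) = true := by
        rw [List.all_eq_true]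
        exact fun q hq => hS q hq p List.mem_cons_self hP
      rw [if_pos hall] at h
      refine ih (p :: S) h.2 hp.2 ?_
      intro q hq r hr hPr
      rcases List.mem_cons.1 hq with rfl | hq
      · exact hp.1 r hr hP hPr
      · exact hS q hq r (List.mem_cons_of_mem _ hr) hPr
    · rw [List.filter_cons_of_neg hP]
      exact ih S h.1 hp.2 fun q hq r hr => hS q hq r (List.mem_cons_of_mem _ hr)

/-- Two edges with a common vertex. -/
def share (i j : Fin 10) : Prop := e1 i = e1 j ∨ e1 i = e2 j ∨ e2 i = e1 j ∨ e2 i = e2 j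

instance (i j : Fin 10) : Decidable (share i j) :=
  inferInstanceAs (Decidable (e1 i = e1 j ∨ e1 i = e2 j ∨ e2 i = e1 j ∨ e2 i = e2 j))

lemma share_or : ∀ i j : Fin 10, i < j → (i, j) ∈ pairs ∨ share i j := by decide +kernel
lemma pairs_lt : ∀ p ∈ pairs, p.1 < p.2 := by decide +kernel
lemma e1_ne : ∀ i, e1 i ≠ e2 i := by decide +kernel
lemma ed_inj' : ∀ i j : Fin 10, i ≠ j →
    ¬ ((e1 i = e1 j ∧ e2 i = e2 j) ∨ (e1 i = e2 j ∧ e2 i = e1 j)) := by decide +kernel
lemma ed_inj (i j : Fin 10) (h : i ≠ j) : s(e1 i, e2 i) ≠ s(e1 j, e2 j) := by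
  intro he
  exact ed_inj' i j h (Sym2.eq_iff.1 he)
lemma ed_ix' : ∀ a b : Fin 5, a ≠ b → (e1 (ix a b) = a ∧ e2 (ix a b) = b) ∨
    (e1 (ix a b) = b ∧ e2 (ix a b) = a) := by decide +kernel
lemma ed_ix (a b : Fin 5) (h : a ≠ b) : s(e1 (ix a b), e2 (ix a b)) = s(a, b) :=
  Sym2.eq_iff.2 (ed_ix' a b h)
lemma triple' : ∀ i j : Fin 10, share i j ∨ ∀ k : Fin 10, (share i k ∨ j = k ∨ share j k) := by
  decide +kernel
lemma pairs_not_share : ∀ p ∈ pairs, ¬ share p.1 p.2 ∧ ¬ share p.2 p.1 := by decide +kernel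
lemma triple (i j k : Fin 10) (hjk : j ≠ k) (h1 : (i, j) ∈ pairs ∨ (j, i) ∈ pairs)
    (h2 : (i, k) ∈ pairs ∨ (k, i) ∈ pairs) : share j k := by
  have h3 : ¬ share i j := by
    rcases h1 with h | h
    · exact (pairs_not_share _ h).1
    · exact (pairs_not_share _ h).2
  have h4 : ¬ share i k := by
    rcases h2 with h | h
    · exact (pairs_not_share _ h).1
    · exact (pairs_not_share _ h).2
  rcases triple' i j with h | h
  · exact absurd h h3
  rcases h k with h | h | h
  · exact absurd h h4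
  · exact absurd h hjk
  · exact h
lemma pairs_nodup : pairs.Nodup := by decide +kernel
lemma cps_inj' : (cps.all fun φ => (List.finRange 5).all fun a => (List.finRange 5).all fun b =>
    a == b || !(φ a == φ b)) = true := by decide +kernel
lemma cps_inj (φ : Fin 5 → Fin 5) (hφ : φ ∈ cps) (a b : Fin 5) (h : φ a = φ b) : a = b := by
  have h1 := List.all_eq_true.1 (List.all_eq_true.1 (List.all_eq_true.1 cps_inj' φ hφ) a
    (List.mem_finRange a)) b (List.mem_finRange b)
  rw [h] at h1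
  simpa using h1

/-- The number of values is the number of last occurrences. -/
lemma card_image_last {n : ℕ} (x : Fin n → ℕ) :
    (univ.image x).card = (univ.filter fun i => ∀ j, i < j → x j ≠ x i).card := by
  classical
  have hinj : Set.InjOn x ((univ.filter fun i => ∀ j, i < j → x j ≠ x i : Finset (Fin n)) :
      Set (Fin n)) := by
    intro i hi j hj hij
    rw [Finset.mem_coe, Finset.mem_filter] at hi hj
    rcases lt_trichotomy i j with h | h | h
    · exact absurd hij.symm (hi.2 j h)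
    · exact h
    · exact absurd hij (hj.2 i h)
  rw [← Finset.card_image_of_injOn hinj]
  congr 1
  ext k
  simp only [Finset.mem_image, Finset.mem_univ, true_and, Finset.mem_filter]
  constructor
  · rintro ⟨i, rfl⟩
    have hne : (univ.filter fun j => x j = x i).Nonempty := ⟨i, by simp⟩
    obtain ⟨m, hm, hmax⟩ := Finset.exists_max_image _ (id : Fin n → Fin n) hne
    rw [Finset.mem_filter] at hm
    refine ⟨m, fun j hj hxj => ?_, hm.2⟩
    have := hmax j (by simp [hxj, hm.2])
    exact absurd hj (not_lt.2 this)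
  · rintro ⟨i, _, rfl⟩; exact ⟨i, rfl⟩

section six

variable {c : Sym2 (Fin 5) → ℕ} (hc : Proper (⊤ : SimpleGraph (Fin 5)) c)

include hc in
lemma share_ne {i j : Fin 10} (hij : i ≠ j) (h : share i j) :
    c s(e1 i, e2 i) ≠ c s(e1 j, e2 j) := by
  refine hc _ ?_ _ ?_ (ed_inj i j hij) ?_
  · exact e1_ne i
  · exact e1_ne j
  · rcases h with h | h | h | h
    · exact ⟨e1 i, by simp, by simp [h]⟩
    · exact ⟨e1 i, by simp, by simp [h]⟩
    · exact ⟨e2 i, by simp, by simp [h]⟩
    · exact ⟨e2 i, by simp, by simp [h]⟩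

lemma image_eq : c '' (⊤ : SimpleGraph (Fin 5)).edgeSet =
    ((univ.image fun i : Fin 10 => c s(e1 i, e2 i) : Finset ℕ) : Set ℕ) := by
  ext k
  simp only [Set.mem_image, Finset.coe_image, Finset.coe_univ, Set.image_univ, Set.mem_range]
  constructor
  · rintro ⟨e, he, rfl⟩
    induction e with
    | _ a b =>
      have hab : a ≠ b := he
      exact ⟨ix a b, by rw [ed_ix a b hab]⟩
  · rintro ⟨i, rfl⟩
    exact ⟨_, e1_ne i, rfl⟩

include hc in
/-- Every proper colouring of `K_5` with exactly `6` colours has a rainbow house. -/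
lemma six (hu : Uses (⊤ : SimpleGraph (Fin 5)) c 6) : HasRainbow (⊤ : SimpleGraph (Fin 5)) house c := by
  classical
  let x : Fin 10 → ℕ := fun i => c s(e1 i, e2 i)
  have hx : ∀ i j, i ≠ j → share i j → x i ≠ x j := fun i j hij h => share_ne hc hij h
  let P : Fin 10 × Fin 10 → Bool := fun p => decide (x p.1 = x p.2)
  have hpw : pairs.Pairwise (fun p q => P p = true → P q = true → dj p q = true) := by
    refine pairs_nodup.pairwise_of_forall_ne ?_
    rintro ⟨i, j⟩ hp ⟨k, l⟩ hq hne h1 h2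
    have h1' : x i = x j := by simpa [P] using h1
    have h2' : x k = x l := by simpa [P] using h2
    have hij : i < j := pairs_lt _ hp
    have hkl : k < l := pairs_lt _ hq
    simp only [dj, Bool.and_eq_true, bne_iff_ne, ne_eq]
    refine ⟨⟨⟨?_, ?_⟩, ?_⟩, ?_⟩
    · rintro rfl
      have hjl : j ≠ l := fun h => hne (by rw [h])
      exact hx j l hjl (triple i j l hjl (Or.inl hp) (Or.inl hq)) (h1'.symm.trans h2')
    · rintro rfl
      have hjl : j ≠ k := (hkl.trans hij).ne'
      exact hx j k hjl (triple i j k hjl (Or.inl hp) (Or.inr hq)) (h1'.symm.trans h2'.symm)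
    · rintro rfl
      have hjl : i ≠ l := (hij.trans hkl).ne
      exact hx i l hjl (triple j i l hjl (Or.inr hp) (Or.inl hq)) (h1'.trans h2')
    · rintro rfl
      have hjl : i ≠ k := fun h => hne (by rw [h])
      exact hx i k hjl (triple j i k hjl (Or.inr hp) (Or.inr hq)) (h1'.trans h2'.symm)
  have hok := chk_sound P pairs [] chk_pairs hpw (by simp)
  rw [List.append_nil] at hok
  set S := (pairs.filter P).reverse with hS
  have hmemS : ∀ p, p ∈ S ↔ p ∈ pairs ∧ x p.1 = x p.2 := by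
    intro p; rw [hS, List.mem_reverse, List.mem_filter]; simp [P]
  -- the number of colours
  have hcard : (univ.filter fun i : Fin 10 => ∀ p ∈ S, p.1 ≠ i).card = 6 := by
    have h1 := hu.1
    rw [image_eq, Set.ncard_coe_finset, card_image_last] at h1
    rw [← h1]
    congr 1
    ext i
    simp only [Finset.mem_filter, Finset.mem_univ, true_and]
    constructor
    · intro h j hj hxj
      rcases share_or i j hj with hp | hs
      · exact h (i, j) ((hmemS _).2 ⟨hp, hxj.symm⟩) rfl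
      · exact hx i j hj.ne hs hxj.symm
    · rintro h p hp rfl
      obtain ⟨hp1, hp2⟩ := (hmemS _).1 hp
      exact h p.2 (pairs_lt _ hp1) hp2.symm
  have hcount : (List.finRange 10).countP (fun i => S.all fun p => p.1 != i) = 6 := by
    rw [← hcard, List.countP_eq_length_filter]
    have : (univ.filter fun i : Fin 10 => ∀ p ∈ S, p.1 ≠ i) =
        ((List.finRange 10).filter fun i => S.all fun p => p.1 != i).toFinset := by
      ext i
      simp
    rw [this, List.toFinset_card_of_nodup ((List.nodup_finRange 10).filter _)]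
  rw [okS, if_pos hcount, List.any_eq_true] at hok
  obtain ⟨φ, hφ, hall⟩ := hok
  rw [List.all_eq_true] at hall
  have hinj : Function.Injective φ := fun a b h => cps_inj φ hφ a b h
  refine ⟨φ, hinj, ?_, ?_⟩
  · intro a b hab
    exact fun h => hab.ne (hinj h)
  · -- colours of the edges of the copy
    have key : ∀ e ∈ house.edgeSet, ∃ i, hm φ i = true ∧ e.map φ = s(e1 i, e2 i) := by
      intro e he
      induction e with
      | _ a b =>
        obtain ⟨hab, h | h⟩ := (show house.Adj a b from he)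
        · refine ⟨ix (φ a) (φ b), ?_, ?_⟩
          · rw [hm, List.any_eq_true]; exact ⟨(a, b), h, by simp⟩
          · rw [ed_ix _ _ (fun h => hab (hinj h))]; rfl
        · refine ⟨ix (φ b) (φ a), ?_, ?_⟩
          · rw [hm, List.any_eq_true]; exact ⟨(b, a), h, by simp⟩
          · rw [ed_ix _ _ (fun h => hab (hinj h).symm), Sym2.eq_swap]; rfl
    intro e he f hf hne
    obtain ⟨i, hi, hei⟩ := key e he
    obtain ⟨j, hj, hfj⟩ := key f hf
    rw [hei, hfj]
    have hij : i ≠ j := by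
      rintro rfl
      exact hne (Sym2.map.injective hinj (hei.trans hfj.symm))
    intro heq
    have main : ∀ i j : Fin 10, i < j → hm φ i = true → hm φ j = true → x i ≠ x j := by
      intro i j hlt hi hj heq
      rcases share_or i j hlt with hp | hs
      · have := hall (i, j) ((hmemS _).2 ⟨hp, heq⟩)
        simp [hi, hj] at this
      · exact hx i j hlt.ne hs heq
    rcases lt_or_gt_of_ne hij with h | h
    · exact main i j h hi hj heq
    · exact main j i h hj hi heq.symm

end six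

/-- A colouring given by a symmetric table. -/
def tab (T : Fin 5 → Fin 5 → ℕ) (h : ∀ a b, T a b = T b a) : Sym2 (Fin 5) → ℕ :=
  Sym2.lift ⟨T, h⟩

lemma tab_proper (T : Fin 5 → Fin 5 → ℕ) (h : ∀ a b, T a b = T b a)
    (hT : ∀ a b b', a ≠ b → a ≠ b' → b ≠ b' → T a b ≠ T a b') :
    Proper (⊤ : SimpleGraph (Fin 5)) (tab T h) := by
  intro e he f hf hne ⟨v, hve, hvf⟩
  obtain ⟨w, rfl⟩ := Sym2.mem_iff_exists.1 hve
  obtain ⟨w', rfl⟩ := Sym2.mem_iff_exists.1 hvf
  exact hT v w w' he hf fun h => hne (by rw [h])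

lemma tab_uses (T : Fin 5 → Fin 5 → ℕ) (h : ∀ a b, T a b = T b a) (k : ℕ)
    (hk : (univ.image fun i : Fin 10 => T (e1 i) (e2 i)).card = k) :
    Uses (⊤ : SimpleGraph (Fin 5)) (tab T h) k := by
  have h1 : (tab T h) '' (⊤ : SimpleGraph (Fin 5)).edgeSet =
    ((univ.image fun i : Fin 10 => T (e1 i) (e2 i) : Finset ℕ) : Set ℕ) := image_eq
  constructor
  · rw [h1, Set.ncard_coe_finset, hk]
  · rw [h1]; exact Finset.finite_toSet _

/-- The colouring of `K_5` with five colours. -/
def T5 (a b : Fin 5) : ℕ := ((a : ℕ) + b) % 5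

/-- The colouring of `K_5` with seven colours. -/
def T7 : Fin 5 → Fin 5 → ℕ := ![![0, 1, 2, 3, 4], ![1, 0, 3, 2, 5], ![2, 3, 0, 1, 6],
  ![3, 2, 1, 0, 7], ![4, 5, 6, 7, 0]]

/-- The table `T` gives no rainbow house. -/
def chkT (T : Fin 5 → Fin 5 → ℕ) : Bool :=
  (List.finRange 5).all fun a => (List.finRange 5).all fun b => a == b ||
    (List.finRange 5).all fun c => a == c || b == c ||
      (List.finRange 5).all fun d => a == d || b == d || c == d ||
        (List.finRange 5).all fun e => a == e || b == e || c == e || d == e ||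
          !(decide ([T a b, T a d, T a e, T b c, T b e, T c d] : List ℕ).Nodup)

lemma chkT_sound {T : Fin 5 → Fin 5 → ℕ} (h : chkT T = true) : ∀ a b : Fin 5, a ≠ b → ∀ c, a ≠ c →
    b ≠ c → ∀ d, a ≠ d → b ≠ d → c ≠ d → ∀ e, a ≠ e → b ≠ e → c ≠ e → d ≠ e →
      ¬ ([T a b, T a d, T a e, T b c, T b e, T c d] : List ℕ).Nodup := by
  intro a b hab c hac hbc d had hbd hcd e hae hbe hce hde
  have := List.all_eq_true.1 h a (List.mem_finRange a)
  have := List.all_eq_true.1 this b (List.mem_finRange b)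
  rw [beq_false_of_ne hab, Bool.false_or] at this
  have := List.all_eq_true.1 this c (List.mem_finRange c)
  rw [beq_false_of_ne hac, beq_false_of_ne hbc, Bool.false_or, Bool.false_or] at this
  have := List.all_eq_true.1 this d (List.mem_finRange d)
  rw [beq_false_of_ne had, beq_false_of_ne hbd, beq_false_of_ne hcd, Bool.false_or,
    Bool.false_or, Bool.false_or] at this
  have := List.all_eq_true.1 this e (List.mem_finRange e)
  rw [beq_false_of_ne hae, beq_false_of_ne hbe, beq_false_of_ne hce, beq_false_of_ne hde,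
    Bool.false_or, Bool.false_or, Bool.false_or, Bool.false_or] at this
  intro hnd
  rw [decide_eq_true hnd] at this
  simp at this

lemma norb (T : Fin 5 → Fin 5 → ℕ) (h : ∀ a b, T a b = T b a) (hT : chkT T = true) :
    ¬ HasRainbow (⊤ : SimpleGraph (Fin 5)) house (tab T h) := by
  rintro ⟨φ, hinj, _, hrb⟩
  have hne : ∀ a b : Fin 5, a ≠ b → φ a ≠ φ b := fun a b hab h => hab (hinj h)
  have hadj : ∀ a b, house.Adj a b → s(a, b) ∈ house.edgeSet := fun a b h => h
  have hcol : ∀ a b a' b', house.Adj a b → house.Adj a' b' → s(a, b) ≠ s(a', b') →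
      T (φ a) (φ b) ≠ T (φ a') (φ b') := fun a b a' b' h1 h2 h3 => hrb _ h1 _ h2 h3
  refine chkT_sound hT (φ 0) (φ 1) (hne _ _ (by decide)) (φ 2) (hne _ _ (by decide)) (hne _ _ (by decide))
    (φ 3) (hne _ _ (by decide)) (hne _ _ (by decide)) (hne _ _ (by decide))
    (φ 4) (hne _ _ (by decide)) (hne _ _ (by decide)) (hne _ _ (by decide))
    (hne _ _ (by decide)) ?_
  simp only [List.nodup_cons, List.mem_cons, List.not_mem_nil, or_false, not_or,
    not_false_eq_true, List.nodup_nil, and_true]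
  refine ⟨⟨?_, ?_, ?_, ?_, ?_⟩, ⟨?_, ?_, ?_, ?_⟩, ⟨?_, ?_, ?_⟩, ⟨?_, ?_⟩, ?_⟩ <;>
    exact hcol _ _ _ _ (by decide) (by decide) (by decide)

/-- **The set `K(G, H)` need not be an interval.**  For `G = K_5` and `H` the house, `5` and `7`
belong to `K(G, H)` but `6` does not. -/
theorem result : 5 ∈ KSet (⊤ : SimpleGraph (Fin 5)) house ∧
    6 ∉ KSet (⊤ : SimpleGraph (Fin 5)) house ∧ 7 ∈ KSet (⊤ : SimpleGraph (Fin 5)) house := by
  refine ⟨⟨by norm_num, tab T5 (by decide +kernel), tab_proper _ _ (by decide +kernel),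
    tab_uses _ _ 5 (by decide +kernel), norb _ _ (by decide +kernel)⟩, ?_,
    ⟨by norm_num, tab T7 (by decide +kernel), tab_proper _ _ (by decide +kernel),
    tab_uses _ _ 7 (by decide +kernel), norb _ _ (by decide +kernel)⟩⟩
  rintro ⟨-, c, hc, hu, hno⟩
  exact hno (six hc hu)

end Pool.Agent.Results.MP_bfacb1_co.House
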